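import Mathlib

/-!
# Finite measurable colourings from countable ones
-/

set_option autoImplicit false

open Classical

noncomputable section

namespace Pool.Agent.T2H42.BNB

section

variable {X Γ : Type} [MeasurableSpace X] [AddGroup Γ]

/-- least number outside a finite set -/
def mex (s : Finset ℕ) : ℕ := sInf {m : ℕ | m ∉ s}

theorem mex_nonempty (s : Finset ℕ) : {m : ℕ | m ∉ s}.Nonempty := by
  obtain ⟨m, hm⟩ := Infinite.exists_notMem_finset s
  exact ⟨m, hm⟩

theorem mex_notMem (s : Finset ℕ) : mex s ∉ s := Nat.sInf_mem (mex_nonempty s)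

theorem mex_le (s : Finset ℕ) : mex s ≤ s.card := by
  by_contra h
  push Not at h
  have h1 : Finset.range (s.card + 1) ⊆ s := by
    intro m hm
    by_contra hms
    have h2 : mex s ≤ m := Nat.sInf_le hms
    have := Finset.mem_range.1 hm
    omega
  have := Finset.card_le_card h1
  rw [Finset.card_range] at this
  omega

variable (a : Γ → X → X) (F : Finset Γ) (N : X → ℕ)

/-- the colours used by the neighbours with a smaller number -/
def used (c : X → ℕ) (x : X) : Finset ℕ :=
  (F.filter fun g => N (a g x) < N x).image fun g => c (a g x)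

/-- stages of the greedy colouring -/
def stg : ℕ → X → ℕ
  | 0 => fun _ => 0
  | n + 1 => fun x => if N x = n then mex (used a F N (stg n) x) else stg n x

/-- the greedy colouring -/
def gcol (x : X) : ℕ := stg a F N (N x + 1) x

theorem stg_stable (x : X) : ∀ m, N x < m → stg a F N m x = gcol a F N x := by
  intro m
  induction m with
  | zero => intro h; omega
  | succ m ih =>
    intro h
    by_cases h1 : N x = m
    · subst h1; rfl
    · have h2 : stg a F N (m + 1) x = stg a F N m x := by
        show (if N x = m then _ else _) = _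
        rw [if_neg h1]
      rw [h2]
      exact ih (by omega)

theorem gcol_eq (x : X) : gcol a F N x = mex (used a F N (gcol a F N) x) := by
  have h1 : gcol a F N x = mex (used a F N (stg a F N (N x)) x) := by
    show (if N x = N x then _ else _) = _
    rw [if_pos rfl]
  rw [h1]
  congr 1
  unfold used
  refine Finset.image_congr ?_
  intro g hg
  have hg' := (Finset.mem_filter.1 (Finset.mem_coe.1 hg)).2
  exact stg_stable a F N (a g x) (N x) hg'

theorem gcol_le (x : X) : gcol a F N x ≤ F.card := by
  rw [gcol_eq]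
  refine (mex_le _).trans ?_
  unfold used
  exact Finset.card_image_le.trans (Finset.card_filter_le _ _)

theorem gcol_ne (hneg : ∀ g ∈ F, -g ∈ F) (hinv : ∀ g ∈ F, ∀ x, a (-g) (a g x) = x)
    (hN : ∀ g ∈ F, ∀ x, N (a g x) ≠ N x) (g : Γ) (hg : g ∈ F) (x : X) :
    gcol a F N (a g x) ≠ gcol a F N x := by
  have key : ∀ (g : Γ) (_ : g ∈ F) (x : X), N (a g x) < N x →
      gcol a F N (a g x) ≠ gcol a F N x := by
    intro g hg x h h2
    have h3 : gcol a F N (a g x) ∈ used a F N (gcol a F N) x := by
      unfold used
      exact Finset.mem_image_of_mem _ (Finset.mem_filter.2 ⟨hg, h⟩)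
    rw [h2, gcol_eq a F N x] at h3
    exact mex_notMem _ h3
  rcases lt_or_gt_of_ne (hN g hg x) with h | h
  · exact key g hg x h
  · have h1 := key (-g) (hneg g hg) (a g x) (by rw [hinv g hg]; exact h)
    rw [hinv g hg] at h1
    exact h1.symm

theorem meas_used (ha : ∀ g ∈ F, Measurable (a g)) (hNm : Measurable N) (c : X → ℕ)
    (hc : Measurable c) : Measurable fun x => mex (used a F N c x) := by
  have h1 : (fun x => mex (used a F N c x)) =
      (fun y : (F → ℕ × ℕ) × ℕ => mex (((Finset.univ : Finset F).filter
        fun g => (y.1 g).1 < y.2).image fun g => (y.1 g).2)) ∘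
      (fun x => ((fun g : F => (N (a g x), c (a g x))), N x)) := by
    funext x
    simp only [Function.comp]
    congr 1
    unfold used
    ext m
    simp only [Finset.mem_image, Finset.mem_filter, Finset.mem_univ, true_and]
    constructor
    · rintro ⟨g, ⟨h1, h2⟩, h3⟩
      exact ⟨⟨g, h1⟩, h2, h3⟩
    · rintro ⟨g, h2, h3⟩
      exact ⟨g.1, ⟨g.2, h2⟩, h3⟩
  rw [h1]
  refine Measurable.comp (Measurable.of_discrete) ?_
  refine Measurable.prodMk ?_ hNm
  refine measurable_pi_lambda _ fun g => ?_
  exact (hNm.comp (ha g g.2)).prodMk (hc.comp (ha g g.2))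

theorem meas_stg (ha : ∀ g ∈ F, Measurable (a g)) (hNm : Measurable N) :
    ∀ n, Measurable (stg a F N n) := by
  intro n
  induction n with
  | zero => exact measurable_const
  | succ n ih =>
    show Measurable fun x => if N x = n then mex (used a F N (stg a F N n) x) else stg a F N n x
    exact Measurable.ite (hNm (measurableSet_singleton n)) (meas_used a F N ha hNm _ ih) ih

theorem meas_gcol (ha : ∀ g ∈ F, Measurable (a g)) (hNm : Measurable N) :
    Measurable (gcol a F N) := by
  refine measurable_to_countable' fun j => ?_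
  have h1 : gcol a F N ⁻¹' {j} = ⋃ n, (N ⁻¹' {n} ∩ (stg a F N (n + 1)) ⁻¹' {j}) := by
    ext x
    simp only [Set.mem_preimage, Set.mem_singleton_iff, Set.mem_iUnion, Set.mem_inter_iff]
    constructor
    · intro h
      exact ⟨N x, rfl, h⟩
    · rintro ⟨n, rfl, h⟩
      exact h
  rw [h1]
  exact MeasurableSet.iUnion fun n => (hNm (measurableSet_singleton n)).inter
    (meas_stg a F N ha hNm (n + 1) (measurableSet_singleton j))

/-- A measurable colouring with countably many colours gives one with `F.card + 1` colours. -/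
theorem exists_finite_colouring (ha : ∀ g ∈ F, Measurable (a g)) (hneg : ∀ g ∈ F, -g ∈ F)
    (hinv : ∀ g ∈ F, ∀ x, a (-g) (a g x) = x) (hNm : Measurable N)
    (hN : ∀ g ∈ F, ∀ x, N (a g x) ≠ N x) :
    ∃ c : X → Fin (F.card + 1), Measurable c ∧ ∀ g ∈ F, ∀ x, c (a g x) ≠ c x := by
  refine ⟨fun x => ⟨gcol a F N x, Nat.lt_succ_of_le (gcol_le a F N x)⟩, ?_, ?_⟩
  · refine measurable_to_countable' fun j => ?_
    have h1 : (fun x => (⟨gcol a F N x, Nat.lt_succ_of_le (gcol_le a F N x)⟩ : Fin (F.card + 1)))
        ⁻¹' {j} = gcol a F N ⁻¹' {j.val} := by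
      ext x
      simp only [Set.mem_preimage, Set.mem_singleton_iff, Fin.ext_iff]
    rw [h1]
    exact meas_gcol a F N ha hNm (measurableSet_singleton _)
  · intro g hg x h
    exact gcol_ne a F N hneg hinv hN g hg x (congrArg Fin.val h)

end

end Pool.Agent.T2H42.BNB

end
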