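import Pool.Agent.T2H42.BNB.Defs
import Pool.Agent.T2H42.BNB.Greedy

/-!
# Borel colourings of the free part
-/

set_option autoImplicit false

open Classical

noncomputable section

namespace Pool.Agent.T2H42.BNB

open MeasureTheory

theorem act_zero {d : ℕ} (x : XX d) : act 0 x = x := Subtype.ext (sft_zero x.1)

theorem act_add {d : ℕ} (g h : Fin d → ℤ) (x : XX d) : act (g + h) x = act g (act h x) :=
  Subtype.ext (sft_add g h x.1)

theorem act_neg_act {d : ℕ} (g : Fin d → ℤ) (x : XX d) : act (-g) (act g x) = x := by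
  rw [← act_add, neg_add_cancel, act_zero]

theorem act_act_neg {d : ℕ} (g : Fin d → ℤ) (x : XX d) : act g (act (-g) x) = x := by
  rw [← act_add, add_neg_cancel, act_zero]

theorem act_free {d : ℕ} {g : Fin d → ℤ} {x : XX d} (h : act g x = x) : g = 0 := by
  by_contra hg
  exact x.2 g hg (congrArg Subtype.val h)

theorem act_inj {d : ℕ} {g h : Fin d → ℤ} {x : XX d} (e : act g x = act h x) : g = h := by
  have h1 : act (-h + g) x = x := by rw [act_add, e, act_neg_act]
  have h2 := act_free h1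
  have : g = h := by
    have h3 : h + (-h + g) = h + 0 := by rw [h2]
    simpa using h3
  exact this

theorem cont_sft {d : ℕ} (g : Fin d → ℤ) : Continuous (sft g : Conf d → Conf d) :=
  continuous_pi fun h => continuous_apply (h + g)

theorem cont_act {d : ℕ} (g : Fin d → ℤ) : Continuous (act g : XX d → XX d) :=
  Continuous.subtype_mk ((cont_sft g).comp continuous_subtype_val) _

theorem meas_sft {d : ℕ} (g : Fin d → ℤ) : Measurable (sft g : Conf d → Conf d) :=
  measurable_pi_lambda _ fun h => measurable_pi_apply (h + g)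

theorem meas_act {d : ℕ} (g : Fin d → ℤ) : Measurable (act g : XX d → XX d) :=
  Measurable.subtype_mk ((meas_sft g).comp measurable_subtype_coe)

/-- cylinders -/
def cyl {d : ℕ} (p : Finset (Fin d → ℤ) × Finset (Fin d → ℤ)) : Set (XX d) :=
  {x | ∀ s ∈ p.1, (x.1 s = true ↔ s ∈ p.2)}

theorem meas_cyl {d : ℕ} (p : Finset (Fin d → ℤ) × Finset (Fin d → ℤ)) :
    MeasurableSet (cyl p) := by
  have h1 : cyl p = ⋂ s ∈ p.1, {x : XX d | x.1 s = true ↔ s ∈ p.2} := by
    ext x
    simp only [cyl, Set.mem_setOf_eq, Set.mem_iInter]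
  rw [h1]
  refine Finset.measurableSet_biInter _ fun s _ => ?_
  have h2 : Measurable fun x : XX d => x.1 s :=
    (measurable_pi_apply s).comp measurable_subtype_coe
  have h3 : {x : XX d | x.1 s = true ↔ s ∈ p.2} =
      (fun x : XX d => x.1 s) ⁻¹' {b | b = true ↔ s ∈ p.2} := rfl
  rw [h3]
  exact h2 (Set.toFinite _).measurableSet

theorem exists_cyl {d : ℕ} (F : Finset (Fin d → ℤ)) (hF : (0 : Fin d → ℤ) ∉ F) (x : XX d) :
    ∃ p, x ∈ cyl p ∧ ∀ y ∈ cyl p, ∀ g ∈ F, act g y ∉ cyl p := by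
  have h1 : ∀ g ∈ F, ∃ h : Fin d → ℤ, x.1 (h + g) ≠ x.1 h := by
    intro g hg
    by_contra hcon
    push Not at hcon
    have hg0 : g ≠ 0 := fun h => hF (h ▸ hg)
    exact x.2 g hg0 (funext hcon)
  choose! w hw using h1
  let S : Finset (Fin d → ℤ) := F.image w ∪ F.image fun g => w g + g
  let A : Finset (Fin d → ℤ) := S.filter fun s => x.1 s = true
  refine ⟨(S, A), ?_, ?_⟩
  · intro s hs
    simp only [A, Finset.mem_filter]
    exact ⟨fun h => ⟨hs, h⟩, fun h => h.2⟩
  · intro y hy g hg hgy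
    have a1 : w g ∈ S := Finset.mem_union_left _ (Finset.mem_image_of_mem _ hg)
    have a2 : w g + g ∈ S :=
      Finset.mem_union_right _ (Finset.mem_image_of_mem (fun g => w g + g) hg)
    have b1 := hgy (w g) a1
    have b2 := hy (w g + g) a2
    have e1 : (act g y).1 (w g) = y.1 (w g + g) := rfl
    rw [e1] at b1
    simp only [A, Finset.mem_filter, a1, a2, true_and] at b1 b2
    have b3 : x.1 (w g + g) = true ↔ x.1 (w g) = true := b2.symm.trans b1
    exact hw g hg (Bool.eq_iff_iff.2 b3)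

/-- A Borel colouring with finitely many colours such that `g · x` and `x` have different colours for
all `g` in a given finite set. -/
theorem exists_colouring {d : ℕ} (F : Finset (Fin d → ℤ)) (hF : (0 : Fin d → ℤ) ∉ F)
    (hneg : ∀ g ∈ F, -g ∈ F) :
    ∃ c : XX d → Fin (F.card + 1), Measurable c ∧ ∀ g ∈ F, ∀ x, c (act g x) ≠ c x := by
  obtain ⟨enc, henc⟩ := exists_injective_nat (Finset (Fin d → ℤ) × Finset (Fin d → ℤ))
  let J : Set (Finset (Fin d → ℤ) × Finset (Fin d → ℤ)) :=
    {p | ∀ y ∈ cyl p, ∀ g ∈ F, act g y ∉ cyl p}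
  have hp : ∀ x : XX d, ∃ n : ℕ, ∃ q ∈ J, enc q = n ∧ x ∈ cyl q := by
    intro x
    obtain ⟨p, h1, h2⟩ := exists_cyl F hF x
    exact ⟨enc p, p, h2, rfl, h1⟩
  have hm : ∀ n : ℕ, MeasurableSet {x : XX d | ∃ q ∈ J, enc q = n ∧ x ∈ cyl q} := by
    intro n
    have h1 : {x : XX d | ∃ q ∈ J, enc q = n ∧ x ∈ cyl q} =
        ⋃ q ∈ {q | q ∈ J ∧ enc q = n}, cyl q := by
      ext x
      simp only [Set.mem_setOf_eq, Set.mem_iUnion, exists_prop]
      constructor
      · rintro ⟨q, a, b, c⟩; exact ⟨q, ⟨a, b⟩, c⟩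
      · rintro ⟨q, ⟨a, b⟩, c⟩; exact ⟨q, a, b, c⟩
    rw [h1]
    exact MeasurableSet.biUnion (Set.to_countable _) fun q _ => meas_cyl q
  let N : XX d → ℕ := fun x => Nat.find (hp x)
  have hN : Measurable N := measurable_find hp hm
  refine exists_finite_colouring act F N (fun g _ => meas_act g) hneg
    (fun g _ x => act_neg_act g x) hN ?_
  intro g hg x hEq
  obtain ⟨q, hqJ, hq, hxq⟩ := Nat.find_spec (hp x)
  obtain ⟨q', _, hq', hxq'⟩ := Nat.find_spec (hp (act g x))
  have e : q' = q := by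
    apply henc
    rw [hq, hq']
    exact hEq
  rw [e] at hxq'
  exact hqJ x hxq g hg hxq'

end Pool.Agent.T2H42.BNB

end
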