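import Mathlib

/-!
# The shift graph of the free part of `2^(ℤ^d)` and locally checkable labelling problems
-/

set_option autoImplicit false

noncomputable section

namespace Pool.Agent.T2H42.BNB

open MeasureTheory

/-- configurations `2^(ℤ^d)` (product topology, product sigma-algebra) -/
abbrev Conf (d : ℕ) : Type := (Fin d → ℤ) → Bool

/-- the shift action `(g · x)(h) = x (h + g)` -/
def sft {d : ℕ} (g : Fin d → ℤ) (x : Conf d) : Conf d := fun h => x (h + g)

/-- the free part of the shift action -/
def FreePart (d : ℕ) : Set (Conf d) := {x | ∀ g : Fin d → ℤ, g ≠ 0 → sft g x ≠ x}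

theorem sft_zero {d : ℕ} (x : Conf d) : sft 0 x = x := by
  funext h; simp [sft]

theorem sft_add {d : ℕ} (g h : Fin d → ℤ) (x : Conf d) : sft (g + h) x = sft g (sft h x) := by
  funext k
  simp only [sft]
  rw [add_assoc]

theorem sft_mem {d : ℕ} (g : Fin d → ℤ) {x : Conf d} (hx : x ∈ FreePart d) :
    sft g x ∈ FreePart d := by
  intro h hh heq
  apply hx h hh
  have h1 : sft (-g) (sft h (sft g x)) = sft (-g) (sft g x) := by rw [heq]
  rw [← sft_add, ← sft_add, ← sft_add] at h1
  have e1 : -g + h + g = h := by abel
  have e2 : -g + g = 0 := by abel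
  rw [e1, e2, sft_zero] at h1
  exact h1

/-- the free part as a space -/
abbrev XX (d : ℕ) : Type := FreePart d

/-- the shift action on the free part -/
def act {d : ℕ} (g : Fin d → ℤ) (x : XX d) : XX d := ⟨sft g x.1, sft_mem g x.2⟩

/-- The shift graph: `x` is adjacent to `± e_i · x`. -/
def shiftGraph (d : ℕ) : SimpleGraph (XX d) where
  Adj x y := ∃ i : Fin d, y = act (Pi.single i 1) x ∨ y = act (-Pi.single i 1) x
  symm := by
    have key : ∀ (g : Fin d → ℤ) (x : XX d), x = act (-g) (act g x) := by
      intro g x
      apply Subtype.ext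
      show x.1 = sft (-g) (sft g x.1)
      rw [← sft_add, neg_add_cancel, sft_zero]
    refine ⟨?_⟩
    rintro x y ⟨i, h | h⟩
    · exact ⟨i, Or.inr (by rw [h]; exact key _ _)⟩
    · refine ⟨i, Or.inl ?_⟩
      rw [h]
      have := key (-Pi.single i 1) x
      rwa [neg_neg] at this
  loopless := by
    refine ⟨?_⟩
    rintro x ⟨i, h | h⟩
    · refine x.2 (Pi.single i 1) ?_ (congrArg Subtype.val h).symm
      intro h0
      have := congrFun h0 i
      simp at this
    · refine x.2 (-Pi.single i 1) ?_ (congrArg Subtype.val h).symm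
      intro h0
      have := congrFun h0 i
      simp at this

/-! ### Locally checkable labelling problems -/

/-- A finite rooted graph whose vertices are labelled with `k` labels. -/
structure RGraph (k : ℕ) where
  /-- number of vertices -/
  n : ℕ
  /-- the graph -/
  G : SimpleGraph (Fin n)
  /-- the root -/
  root : Fin n
  /-- the labels -/
  lab : Fin n → Fin k

/-- the ball of radius `r` around `v` -/
def ball {V : Type} (G : SimpleGraph V) (r : ℕ) (v : V) : Set V :=
  {w | ∃ p : G.Walk v w, p.length ≤ r}

theorem mem_ball_self {V : Type} (G : SimpleGraph V) (r : ℕ) (v : V) : v ∈ ball G r v :=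
  ⟨SimpleGraph.Walk.nil, Nat.zero_le _⟩

/-- The ball of radius `r` around `v` (induced subgraph of `G`), rooted at `v` and labelled by `f`,
is isomorphic to `R`. -/
def BallIso {V : Type} {k : ℕ} (G : SimpleGraph V) (f : V → Fin k) (r : ℕ) (v : V)
    (R : RGraph k) : Prop :=
  ∃ e : ball G r v ≃ Fin R.n, (∀ a b : ball G r v, G.Adj a.1 b.1 ↔ R.G.Adj (e a) (e b)) ∧
    e ⟨v, mem_ball_self G r v⟩ = R.root ∧ ∀ a : ball G r v, R.lab (e a) = f a.1

/-- A locally checkable labelling problem: the number `k` of labels, the radius `r`, and the set `P`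
of the allowed isomorphism types of finite rooted labelled graphs (given by representatives). -/
structure LCL where
  /-- number of labels -/
  k : ℕ
  /-- radius -/
  r : ℕ
  /-- allowed rooted labelled graphs -/
  P : Set (RGraph k)

/-- `f` satisfies the problem at the vertex `v`: its ball of radius `r` is allowed. -/
def LCL.At {V : Type} (L : LCL) (G : SimpleGraph V) (f : V → Fin L.k) (v : V) : Prop :=
  ∃ R ∈ L.P, BallIso G f L.r v R

/-- a subset of the free part which is invariant under the action -/
def Invariant {d : ℕ} (C : Set (XX d)) : Prop := ∀ g : Fin d → ℤ, ∀ x ∈ C, act g x ∈ C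

/-- The shift graph has a Borel solution. -/
def LCL.BorelSol (L : LCL) (d : ℕ) : Prop :=
  ∃ f : XX d → Fin L.k, Measurable f ∧ ∀ x, L.At (shiftGraph d) f x

/-- The shift graph has a measurable solution: for every Borel probability measure `μ` on the free
part, a Borel solution on some invariant `μ`-conull Borel set. -/
def LCL.MeasSol (L : LCL) (d : ℕ) : Prop :=
  ∀ μ : Measure (XX d), IsProbabilityMeasure μ →
    ∃ (C : Set (XX d)) (f : XX d → Fin L.k), MeasurableSet C ∧ Invariant C ∧ μ Cᶜ = 0 ∧
      Measurable f ∧ ∀ x ∈ C, L.At (shiftGraph d) f x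

/-- The shift graph has a Baire measurable solution: a Borel solution on some invariant comeagre
Borel set. -/
def LCL.BaireSol (L : LCL) (d : ℕ) : Prop :=
  ∃ (C : Set (XX d)) (f : XX d → Fin L.k), MeasurableSet C ∧ Invariant C ∧ C ∈ residual (XX d) ∧
      Measurable f ∧ ∀ x ∈ C, L.At (shiftGraph d) f x

end Pool.Agent.T2H42.BNB

end
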