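import Pool.Agent.T2H42.BNB.Colour
import Pool.Agent.W927.BM.Main
import Pool.Agent.W927.BM.Win

/-!
# The labelling problem

The labels of the problem of `Pool.Agent.W927.BM` together with a colour of the vertex and a table
with the colours of its neighbours in the `2 d` directions. The table makes the directions visible
in the unlabelled graph.
-/

set_option autoImplicit false

open Classical

noncomputable section

namespace Pool.Agent.T2H42.BNB

open Pool.Agent.W927.BM (Lab Rule Rule_congr)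

/-- directions -/
abbrev Dir (d : ℕ) : Type := Fin d × Bool

/-- the vector of a direction -/
def sv {d : ℕ} (δ : Dir d) : Fin d → ℤ := if δ.2 then Pi.single δ.1 1 else -Pi.single δ.1 1

/-- the opposite direction -/
def ngd {d : ℕ} (δ : Dir d) : Dir d := (δ.1, !δ.2)

theorem ngd_ngd {d : ℕ} (δ : Dir d) : ngd (ngd δ) = δ := by
  simp [ngd]

theorem sv_ngd {d : ℕ} (δ : Dir d) : sv (ngd δ) = -sv δ := by
  obtain ⟨i, b⟩ := δ
  cases b <;> simp [sv, ngd]

theorem sv_ne_zero {d : ℕ} (δ : Dir d) : sv δ ≠ 0 := by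
  obtain ⟨i, b⟩ := δ
  intro h
  have := congrFun h i
  cases b <;> simp [sv] at this

/-- labels -/
abbrev Lb (d K : ℕ) : Type := Fin K × (Dir d → Fin K) × Lab

section

variable {d K : ℕ} {V : Type} (G : SimpleGraph V) (l : V → Lb d K)

/-- `w` is the neighbour of `v` in direction `δ` according to the table of `v`. -/
def Step (δ : Dir d) (v w : V) : Prop := G.Adj v w ∧ (l w).1 = (l v).2.1 δ

/-- The local rule at the vertex `v`. -/
structure Good (hd : 2 ≤ d) (v : V) : Prop where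
  inj : Function.Injective (l v).2.1
  dist : ∀ w w', G.Adj v w → G.Adj v w' → (l w).1 = (l w').1 → w = w'
  ex : ∀ δ, ∃ w, Step G l δ v w
  back : ∀ δ w, Step G l δ v w → Step G l (ngd δ) w v
  comm : ∀ δ ε w z, ε ≠ δ → ε ≠ ngd δ → Step G l δ v w → Step G l ε v z →
    ∃ y, Step G l ε w y ∧ Step G l δ z y
  rule : ∃ χ : ℤ → ℤ → V, χ 0 0 = v ∧
    (∀ t x : ℤ, |t| ≤ 2 → |x| ≤ 2 → |t + 1| ≤ 2 →
      Step G l (⟨0, by omega⟩, true) (χ t x) (χ (t + 1) x)) ∧
    (∀ t x : ℤ, |t| ≤ 2 → |x| ≤ 2 → |x + 1| ≤ 2 →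
      Step G l (⟨1, by omega⟩, true) (χ t x) (χ t (x + 1))) ∧
    Rule (fun t x => (l (χ t x)).2.2) 0 0

end

/-- Transport along an isomorphism. -/
theorem Good.map {d K : ℕ} {hd : 2 ≤ d} {V W : Type} {G : SimpleGraph V} {H : SimpleGraph W}
    {l : V → Lb d K} {m : W → Lb d K} (e : V ≃ W) (hadj : ∀ a b, G.Adj a b ↔ H.Adj (e a) (e b))
    (hl : ∀ a, m (e a) = l a) {v : V} (h : Good G l hd v) : Good H m hd (e v) := by
  have st : ∀ δ a b, Step G l δ a b ↔ Step H m δ (e a) (e b) := by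
    intro δ a b
    unfold Step
    rw [hadj, hl, hl]
  have st' : ∀ δ a b, Step G l δ a (e.symm b) ↔ Step H m δ (e a) b := by
    intro δ a b
    rw [st, e.apply_symm_apply]
  refine ⟨?_, ?_, ?_, ?_, ?_, ?_⟩
  · rw [hl]; exact h.inj
  · intro w w' hw hw' hc
    have h1 := h.dist (e.symm w) (e.symm w') (by rw [hadj, e.apply_symm_apply]; exact hw)
      (by rw [hadj, e.apply_symm_apply]; exact hw')
      (by rw [← hl, ← hl, e.apply_symm_apply, e.apply_symm_apply]; exact hc)
    exact e.symm.injective h1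
  · intro δ
    obtain ⟨w, hw⟩ := h.ex δ
    exact ⟨e w, (st δ v w).1 hw⟩
  · intro δ w hw
    have h1 := h.back δ (e.symm w) ((st' δ v w).2 hw)
    have h2 := (st _ _ _).1 h1
    rwa [e.apply_symm_apply] at h2
  · intro δ ε w z h1 h2 hw hz
    obtain ⟨y, hy1, hy2⟩ := h.comm δ ε (e.symm w) (e.symm z) h1 h2 ((st' δ v w).2 hw)
      ((st' ε v z).2 hz)
    refine ⟨e y, ?_, ?_⟩
    · have := (st _ _ _).1 hy1
      rwa [e.apply_symm_apply] at this
    · have := (st _ _ _).1 hy2
      rwa [e.apply_symm_apply] at this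
  · obtain ⟨χ, c0, c1, c2, c3⟩ := h.rule
    refine ⟨fun t x => e (χ t x), by simp only [c0], ?_, ?_, ?_⟩
    · intro t x a b c
      exact (st _ _ _).1 (c1 t x a b c)
    · intro t x a b c
      exact (st _ _ _).1 (c2 t x a b c)
    · simp only [hl]
      exact c3

/-- From the ball to the whole graph. -/
theorem Good.of_ball {d K : ℕ} {hd : 2 ≤ d} {V : Type} {G : SimpleGraph V} {l : V → Lb d K}
    {r : ℕ} (hr : 1 ≤ r) {v : V}
    (h : Good (G.comap (Subtype.val : ball G r v → V)) (fun a => l a.1) hd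
      ⟨v, mem_ball_self G r v⟩) : Good G l hd v := by
  have nb : ∀ w, G.Adj v w → w ∈ ball G r v := fun w hw =>
    ⟨SimpleGraph.Walk.cons hw SimpleGraph.Walk.nil, by simpa using hr⟩
  have st : ∀ (δ : Dir d) (a b : ball G r v),
      Step (G.comap (Subtype.val : ball G r v → V)) (fun a => l a.1) δ a b ↔
        Step G l δ a.1 b.1 := fun _ _ _ => Iff.rfl
  refine ⟨h.inj, ?_, ?_, ?_, ?_, ?_⟩
  · intro w w' hw hw' hc
    exact congrArg Subtype.val (h.dist ⟨w, nb w hw⟩ ⟨w', nb w' hw'⟩ hw hw' hc)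
  · intro δ
    obtain ⟨w, hw⟩ := h.ex δ
    exact ⟨w.1, hw⟩
  · intro δ w hw
    exact h.back δ ⟨w, nb w hw.1⟩ hw
  · intro δ ε w z h1 h2 hw hz
    obtain ⟨y, a, b⟩ := h.comm δ ε ⟨w, nb w hw.1⟩ ⟨z, nb z hz.1⟩ h1 h2 hw hz
    exact ⟨y.1, a, b⟩
  · obtain ⟨χ, c0, c1, c2, c3⟩ := h.rule
    refine ⟨fun t x => (χ t x).1, by simp only [c0], c1, c2, c3⟩

/-- the differences of unit vectors -/
def FF (d : ℕ) : Finset (Fin d → ℤ) :=
  ((Finset.univ : Finset (Dir d × Dir d)).image fun p => sv p.2 - sv p.1).erase 0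

/-- the number of colours -/
def KK (d : ℕ) : ℕ := (FF d).card + 1

/-- number of labels -/
def kk (d : ℕ) : ℕ := Fintype.card (Lb d (KK d))

/-- the labels -/
def dec (d : ℕ) : Fin (kk d) ≃ Lb d (KK d) := (Fintype.equivFin (Lb d (KK d))).symm

/-- The locally checkable labelling problem. -/
def Prob {d : ℕ} (hd : 2 ≤ d) : LCL where
  k := kk d
  r := 5
  P := {R | Good R.G (fun a => dec d (R.lab a)) hd R.root}

theorem At.good {d : ℕ} (hd : 2 ≤ d) {V : Type} {G : SimpleGraph V} {f : V → Fin (kk d)} {v : V}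
    (h : (Prob hd).At G f v) : Good G (fun a => dec d (f a)) hd v := by
  obtain ⟨R, hR, e, h1, h2, h3⟩ := h
  have hR' : Good R.G (fun a => dec d (R.lab a)) hd R.root := hR
  have h4 := Good.map (H := G.comap (Subtype.val : ball G 5 v → V))
    (m := fun a => dec d (f a.1)) e.symm ?_ ?_ hR'
  · rw [← h2] at h4
    have h5 : Good (G.comap (Subtype.val : ball G 5 v → V)) (fun a => dec d (f a.1)) hd
        ⟨v, mem_ball_self G 5 v⟩ := by
      have key : ∀ z : ball G 5 v, z = ⟨v, mem_ball_self G 5 v⟩ →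
          Good (G.comap (Subtype.val : ball G 5 v → V)) (fun a => dec d (f a.1)) hd z →
          Good (G.comap (Subtype.val : ball G 5 v → V)) (fun a => dec d (f a.1)) hd
            ⟨v, mem_ball_self G 5 v⟩ := by
        intro z hz h; rw [← hz]; exact h
      exact key _ (e.symm_apply_apply _) h4
    exact Good.of_ball (l := fun a => dec d (f a)) (by norm_num) h5
  · intro a b
    have := h1 (e.symm a) (e.symm b)
    rw [e.apply_symm_apply, e.apply_symm_apply] at this
    exact this.symm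
  · intro a
    have h5 := h3 (e.symm a)
    rw [e.apply_symm_apply] at h5
    show dec d (f (e.symm a).1) = dec d (R.lab a)
    rw [h5]

theorem good.At {d : ℕ} (hd : 2 ≤ d) {V : Type} {G : SimpleGraph V} {f : V → Fin (kk d)} {v : V}
    (hfin : (ball G 5 v).Finite)
    (h : Good (G.comap (Subtype.val : ball G 5 v → V)) (fun a => dec d (f a.1)) hd
      ⟨v, mem_ball_self G 5 v⟩) : (Prob hd).At G f v := by
  haveI : Fintype (ball G 5 v) := hfin.fintype
  let e : ball G 5 v ≃ Fin (Fintype.card (ball G 5 v)) := Fintype.equivFin _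
  let R : RGraph (kk d) :=
    { n := Fintype.card (ball G 5 v)
      G := (G.comap (Subtype.val : ball G 5 v → V)).comap e.symm
      root := e ⟨v, mem_ball_self G 5 v⟩
      lab := fun i => f (e.symm i).1 }
  have hadj : ∀ a b : ball G 5 v, G.Adj a.1 b.1 ↔ R.G.Adj (e a) (e b) := by
    intro a b
    show G.Adj a.1 b.1 ↔ G.Adj (e.symm (e a)).1 (e.symm (e b)).1
    rw [e.symm_apply_apply, e.symm_apply_apply]
  refine ⟨R, ?_, e, hadj, rfl, ?_⟩
  · refine Good.map (G := G.comap (Subtype.val : ball G 5 v → V))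
      (l := fun a => dec d (f a.1)) e hadj ?_ h
    intro a
    show dec d (f (e.symm (e a)).1) = _
    rw [e.symm_apply_apply]
  · intro a
    show f (e.symm (e a)).1 = _
    rw [e.symm_apply_apply]

end Pool.Agent.T2H42.BNB

end
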