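import Pool.Agent.T2H42.BNB.Rigid
import Pool.Agent.Y560.BE.Erg

/-!
# There is no measurable solution
-/

set_option autoImplicit false

open Classical

noncomputable section

namespace Pool.Agent.T2H42.BNB

open Pool.Agent.W927.BM (Lab Rule Rule_congr)
open MeasureTheory TopologicalSpace

/-- the measure of a fair coin -/
def coin : Measure Bool := (PMF.uniformOfFintype Bool).toMeasure

instance : IsProbabilityMeasure coin := by
  unfold coin
  infer_instance

theorem coin_apply (b : Bool) : coin {b} = 2⁻¹ := by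
  unfold coin
  rw [PMF.toMeasure_apply_singleton _ _ (measurableSet_singleton b),
    PMF.uniformOfFintype_apply]
  simp

/-- the product measure on the configurations -/
def cmu (d : ℕ) : Measure (Conf d) := Measure.infinitePi fun _ : Fin d → ℤ => coin

instance (d : ℕ) : IsProbabilityMeasure (cmu d) := by
  unfold cmu
  infer_instance

theorem mp_sft {d : ℕ} (g : Fin d → ℤ) : MeasurePreserving (sft g) (cmu d) (cmu d) :=
  Pool.Agent.Y560.BE.mp_cm coin (Equiv.addRight g)

theorem erg_sft {d : ℕ} {g : Fin d → ℤ} (hg : g ≠ 0) : Ergodic (sft g) (cmu d) := by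
  refine Pool.Agent.Y560.BE.erg_cm coin (Equiv.addRight g)
    (Pool.Agent.Y560.BE.move_off _ fun i n h => ?_)
  have h1 : ∀ m : ℕ, (Equiv.addRight g)^[m] i = i + m • g := by
    intro m
    induction m with
    | zero => simp
    | succ m ih =>
      rw [Function.iterate_succ_apply', ih]
      show i + m • g + g = _
      rw [add_assoc, succ_nsmul]
  rw [h1] at h
  have h2 : (n + 1) • g = 0 := by simpa using h
  exact hg ((smul_eq_zero.1 h2).resolve_left (Nat.succ_ne_zero n))

theorem cmu_eval {d : ℕ} (i : Fin d → ℤ) (b : Bool) : cmu d {x | x i = b} = 2⁻¹ := by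
  have h1 : cmu d ((fun x : Conf d => x i) ⁻¹' {b}) = coin {b} :=
    (measurePreserving_eval_infinitePi (fun _ : Fin d → ℤ => coin) i).measure_preimage
      (measurableSet_singleton b).nullMeasurableSet
  rw [coin_apply] at h1
  exact h1

theorem null_fix {d : ℕ} {g : Fin d → ℤ} (hg : g ≠ 0) : cmu d {x | sft g x = x} = 0 := by
  have hm : MeasurableSet {x : Conf d | sft g x = x} :=
    (isClosed_eq (cont_sft g) continuous_id).measurableSet
  have key : ∀ b : Bool, cmu d ({x | sft g x = x} ∩ {x | x 0 = b}) = 0 := by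
    intro b
    have hmb0 : Measurable fun x : Conf d => x 0 := measurable_pi_apply (0 : Fin d → ℤ)
    have hmb : MeasurableSet {x : Conf d | x 0 = b} := hmb0 (measurableSet_singleton b)
    have hinv : sft g ⁻¹' ({x | sft g x = x} ∩ {x | x 0 = b}) =
        {x | sft g x = x} ∩ {x | x 0 = b} := by
      ext x
      simp only [Set.mem_preimage, Set.mem_inter_iff, Set.mem_setOf_eq]
      constructor
      · rintro ⟨h1, h2⟩
        have h3 : sft g x = x := by
          have h4 := congrArg (sft (-g)) h1
          have h5 : ∀ y : Conf d, sft (-g) (sft g y) = y := by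
            intro y
            rw [← sft_add, neg_add_cancel, sft_zero]
          rwa [h5, h5] at h4
        exact ⟨h3, by rwa [h3] at h2⟩
      · rintro ⟨h1, h2⟩
        rw [h1]
        exact ⟨h1, h2⟩
    rcases (erg_sft hg).measure_self_or_compl_eq_zero (hm.inter hmb) hinv with h | h
    · exact h
    · exfalso
      have h1 : cmu d ({x | sft g x = x} ∩ {x | x 0 = b}) = 1 :=
        (prob_compl_eq_zero_iff (hm.inter hmb)).1 h
      have h2 : cmu d ({x | sft g x = x} ∩ {x | x 0 = b}) ≤ 2⁻¹ := by
        rw [← cmu_eval (0 : Fin d → ℤ) b]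
        exact measure_mono Set.inter_subset_right
      rw [h1] at h2
      have h3 : (2 : ENNReal)⁻¹ < 1 := by
        rw [ENNReal.inv_lt_one]
        norm_num
      exact absurd h2 (not_le.2 h3)
  have hcov : {x : Conf d | sft g x = x} ⊆
      ({x | sft g x = x} ∩ {x | x 0 = true}) ∪ ({x | sft g x = x} ∩ {x | x 0 = false}) := by
    intro x hx
    cases h : x 0
    · exact Or.inr ⟨hx, h⟩
    · exact Or.inl ⟨hx, h⟩
  exact measure_mono_null hcov (measure_union_null (key true) (key false))

theorem null_free (d : ℕ) : cmu d (FreePart d)ᶜ = 0 := by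
  have h1 : (FreePart d)ᶜ = ⋃ g : {g : Fin d → ℤ // g ≠ 0}, {x | sft g.1 x = x} := by
    ext x
    simp only [FreePart, Set.mem_compl_iff, Set.mem_setOf_eq, Set.mem_iUnion, Subtype.exists]
    push Not
    simp only [exists_prop]
  rw [h1]
  exact measure_iUnion_null fun g => null_fix g.2

/-- the product measure on the free part -/
def muX (d : ℕ) : Measure (XX d) := (cmu d).comap Subtype.val

theorem muX_apply {d : ℕ} (s : Set (XX d)) : muX d s = cmu d (Subtype.val '' s) :=
  comap_subtype_coe_apply (meas_free d) (cmu d) s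

instance (d : ℕ) : IsProbabilityMeasure (muX d) := by
  refine ⟨?_⟩
  rw [muX_apply, Set.image_univ, Subtype.range_coe]
  exact (prob_compl_eq_zero_iff (meas_free d)).1 (null_free d)

theorem meas_val {d : ℕ} {s : Set (XX d)} (hs : MeasurableSet s) :
    MeasurableSet (Subtype.val '' s) :=
  (MeasurableEmbedding.subtype_coe (meas_free d)).measurableSet_image.2 hs

theorem inv_val {d : ℕ} {C : Set (XX d)} (hC : Invariant C) (g : Fin d → ℤ) :
    sft g ⁻¹' (Subtype.val '' C) = Subtype.val '' C := by
  ext x
  constructor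
  · rintro ⟨y, hy, hyx⟩
    refine ⟨act (-g) y, hC _ _ hy, ?_⟩
    show sft (-g) y.1 = x
    rw [hyx, ← sft_add, neg_add_cancel, sft_zero]
  · rintro ⟨y, hy, rfl⟩
    exact ⟨act g y, hC _ _ hy, rfl⟩

/-- The two cases for an invariant set. -/
theorem dich {d : ℕ} (hd : 2 ≤ d) {C : Set (XX d)} (hm : MeasurableSet C) (hC : Invariant C) :
    cmu d (Subtype.val '' C) = 0 ∨ cmu d (Subtype.val '' C)ᶜ = 0 :=
  (erg_sft (sv_ne_zero (⟨0, by omega⟩, true))).measure_self_or_compl_eq_zero (meas_val hm)
    (inv_val hC _)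

/-- There is no measurable solution. -/
theorem not_sol {d : ℕ} (hd : 2 ≤ d) {C : Set (XX d)} {F : XX d → Fin (kk d)}
    (hCm : MeasurableSet C) (hC : Invariant C) (hC0 : muX d Cᶜ = 0) (hF : Measurable F)
    (hat : ∀ x ∈ C, (Prob hd).At (shiftGraph d) F x) : False := by
  set l : XX d → Lb d (KK d) := fun a => dec d (F a) with hl
  have hG : ∀ x ∈ C, Good (shiftGraph d) l hd x := fun x hx => At.good hd (hat x hx)
  -- all functions of the label are measurable
  have hml : ∀ (Q : Lb d (KK d) → Prop), MeasurableSet {x | Q (l x)} := by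
    intro Q
    have : {x | Q (l x)} = F ⁻¹' {n | Q (dec d n)} := rfl
    rw [this]
    exact hF (Set.toFinite _).measurableSet
  have hmR : ∀ σ, MeasurableSet {x | Rd l σ x} := by
    intro σ
    have h1 : {x | Rd l σ x} = ⋂ δ : Dir d, ⋃ a : Fin (KK d),
        (act (sv (σ δ)) ⁻¹' {y | (l y).1 = a} ∩ {x | (l x).2.1 δ = a}) := by
      ext x
      simp only [Rd, Set.mem_setOf_eq, Set.mem_iInter, Set.mem_iUnion, Set.mem_inter_iff,
        Set.mem_preimage]
      constructor
      · intro h δ
        exact ⟨_, h δ, rfl⟩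
      · intro h δ
        obtain ⟨a, h1, h2⟩ := h δ
        rw [h1, h2]
    rw [h1]
    refine MeasurableSet.iInter fun δ => MeasurableSet.iUnion fun a => ?_
    exact (meas_act _ (hml fun z => z.1 = a)).inter (hml fun z => z.2.1 δ = a)
  -- some `σ` is taken on a set of positive measure
  have hex : ∃ σ, cmu d (Subtype.val '' (C ∩ {x | Rd l σ x})) ≠ 0 := by
    by_contra hcon
    push Not at hcon
    have h1 : Subtype.val '' C ⊆ ⋃ σ : Dir d → Dir d, Subtype.val '' (C ∩ {x | Rd l σ x}) := by
      rintro _ ⟨x, hx, rfl⟩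
      obtain ⟨σ, hσ⟩ := exists_Rd (hG x hx)
      exact Set.mem_iUnion.2 ⟨σ, x, ⟨hx, hσ⟩, rfl⟩
    have h2 : cmu d (Subtype.val '' C) = 0 := measure_mono_null h1 (measure_iUnion_null hcon)
    have h3 : muX d C = 1 := (prob_compl_eq_zero_iff hCm).1 hC0
    rw [muX_apply, h2] at h3
    exact zero_ne_one h3
  obtain ⟨σ, hσ⟩ := hex
  set C' : Set (XX d) := C ∩ {x | Rd l σ x} with hC'
  have hCi : Invariant C' := by
    rintro g x ⟨hx, hr⟩
    exact ⟨hC g x hx, Rd.all hC hG hx hr g⟩
  have hC'm : MeasurableSet C' := hCm.inter (hmR σ)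
  have hnull : cmu d (Subtype.val '' C')ᶜ = 0 := (dich hd hC'm hCi).resolve_left hσ
  have hG' : ∀ x ∈ C', Good (shiftGraph d) l hd x := fun x hx => hG x hx.1
  have hR' : ∀ x ∈ C', Rd l σ x := fun x hx => hx.2
  set u : Fin d → ℤ := sv (σ (⟨0, by omega⟩, true)) with hu
  set v : Fin d → ℤ := sv (σ (⟨1, by omega⟩, true)) with hv
  set f : Conf d → Lab := fun y => if h : y ∈ FreePart d then (l ⟨y, h⟩).2.2 else
    (.n, .n, true, (false, false, false, 0), (false, false, false, 0)) with hf
  refine Pool.Agent.W927.BM.neg (Conf d) (cmu d) (fun t x => sft (t • u + x • v)) ?_ ?_ ?_ ?_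
    ⟨f, ?_, ?_⟩
  · intro y
    rw [zero_smul, zero_smul, add_zero, sft_zero]
  · intro s t x z y
    rw [← sft_add]
    congr 1
    module
  · intro t x
    exact mp_sft _
  · show Ergodic (sft ((0 : ℤ) • u + (1 : ℤ) • v)) (cmu d)
    rw [zero_smul, one_smul, zero_add]
    exact erg_sft (sv_ne_zero _)
  · intro a
    by_cases ha : a = (.n, .n, true, (false, false, false, 0), (false, false, false, 0))
    · have h1 : f ⁻¹' {a} = (FreePart d)ᶜ ∪ Subtype.val '' {x : XX d | (l x).2.2 = a} := by
        ext y
        simp only [Set.mem_preimage, Set.mem_singleton_iff, Set.mem_union, Set.mem_compl_iff,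
          Set.mem_image, Set.mem_setOf_eq]
        by_cases hy : y ∈ FreePart d
        · simp only [hf, dif_pos hy, hy, not_true, false_or]
          constructor
          · intro h; exact ⟨⟨y, hy⟩, h, rfl⟩
          · rintro ⟨z, h, rfl⟩; exact h
        · simp only [hf, dif_neg hy, hy, not_false_iff, true_or, iff_true]
          exact ha.symm
      rw [h1]
      exact (meas_free d).compl.union (meas_val (hml fun z => z.2.2 = a))
    · have h1 : f ⁻¹' {a} = Subtype.val '' {x : XX d | (l x).2.2 = a} := by
        ext y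
        simp only [Set.mem_preimage, Set.mem_singleton_iff, Set.mem_image, Set.mem_setOf_eq]
        by_cases hy : y ∈ FreePart d
        · simp only [hf, dif_pos hy]
          constructor
          · intro h; exact ⟨⟨y, hy⟩, h, rfl⟩
          · rintro ⟨z, h, rfl⟩; exact h
        · simp only [hf, dif_neg hy]
          constructor
          · intro h; exact absurd h.symm ha
          · rintro ⟨z, _, rfl⟩; exact absurd z.2 hy
      rw [h1]
      exact meas_val (hml fun z => z.2.2 = a)
  · rw [ae_iff]
    refine measure_mono_null ?_ hnull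
    intro y hy hy2
    obtain ⟨z, hz, rfl⟩ := hy2
    refine hy ?_
    intro t x
    have h1 := rule_of_const hCi hG' hR' hz t x
    have h2 : (fun t' x' : ℤ => f (sft (t' • u + x' • v) z.1)) =
        fun t' x' : ℤ => (l (act (t' • u + x' • v) z)).2.2 := by
      funext t' x'
      exact dif_pos (act (t' • u + x' • v) z).2
    show Rule (fun t' x' : ℤ => f (sft (t' • u + x' • v) z.1)) t x
    rw [h2]
    exact h1

theorem not_measSol {d : ℕ} (hd : 2 ≤ d) : ¬ (Prob hd).MeasSol d := by
  intro h
  obtain ⟨C, F, h1, h2, h3, h4, h5⟩ := h (muX d) inferInstance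
  exact not_sol hd h1 h2 h3 h4 h5

theorem not_borelSol {d : ℕ} (hd : 2 ≤ d) : ¬ (Prob hd).BorelSol d := by
  rintro ⟨F, h1, h2⟩
  refine not_sol hd MeasurableSet.univ (fun _ _ _ => trivial) ?_ h1 fun x _ => h2 x
  rw [Set.compl_univ, measure_empty]

end Pool.Agent.T2H42.BNB

end
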