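import Pool.Agent.T2H42.BNB.Good

/-!
# The Baire measurable solution
-/

set_option autoImplicit false

open Classical

noncomputable section

namespace Pool.Agent.T2H42.BNB

open Pool.Agent.W927.BM (Lab Rule Rule_congr)
open MeasureTheory TopologicalSpace

/-! ### the free part is a Polish space -/

/-- A G-delta subset of a Polish space is Polish (as in `Pool.Agent.H110K2.P_polish_of_Gdelta`). -/
theorem polish_of_Gdelta {Y : Type} [TopologicalSpace Y] [PolishSpace Y] {s : Set Y}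
    (hs : IsGδ s) : PolishSpace s := by
  obtain ⟨U, hU, rfl⟩ := hs.eq_iInter_nat
  have : ∀ n, PolishSpace (U n) := fun n => (hU n).polishSpace
  let f : (⋂ n, U n : Set Y) → ∀ n, U n := fun x n => ⟨x, Set.mem_iInter.1 x.2 n⟩
  have hfc : Continuous f := continuous_pi (fun n => Continuous.subtype_mk continuous_subtype_val _)
  have hg : Continuous (fun p : ∀ n, U n => (p 0 : Y)) :=
    continuous_subtype_val.comp (continuous_apply 0)
  have hind : Topology.IsInducing f := by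
    apply Topology.IsInducing.of_comp hfc hg
    exact Topology.IsInducing.subtypeVal
  have hinj : Function.Injective f := by
    intro x y hxy
    have h1 := congrFun hxy 0
    have h2 : ((f x 0 : U 0) : Y) = ((f y 0 : U 0) : Y) := congrArg (fun z : U 0 => (z : Y)) h1
    exact Subtype.ext h2
  have hrange : Set.range f = ⋂ n, {p : ∀ n, U n | (p n : Y) = (p 0 : Y)} := by
    ext p
    simp only [Set.mem_range, Set.mem_iInter]
    constructor
    · rintro ⟨x, rfl⟩ n
      rfl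
    · intro h
      refine ⟨⟨p 0, Set.mem_iInter.2 (fun n => ?_)⟩, ?_⟩
      · have h2 : (p n : Y) = (p 0 : Y) := h n
        rw [← h2]
        exact (p n).2
      · funext n
        have h2 : (p n : Y) = (p 0 : Y) := h n
        exact Subtype.ext h2.symm
  have hcl : IsClosed (Set.range f) := by
    rw [hrange]
    apply isClosed_iInter
    intro n
    exact isClosed_eq (continuous_subtype_val.comp (continuous_apply n)) hg
  exact Topology.IsClosedEmbedding.polishSpace (f := f) ⟨⟨hind, hinj⟩, hcl⟩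

theorem isGdelta_free (d : ℕ) : IsGδ (FreePart d) := by
  have h1 : FreePart d = ⋂ g : {g : Fin d → ℤ // g ≠ 0}, {x | sft g.1 x ≠ x} := by
    ext x
    simp only [FreePart, Set.mem_setOf_eq, Set.mem_iInter, Subtype.forall]
  rw [h1]
  exact IsGδ.iInter fun g => (isOpen_ne_fun (cont_sft g.1) continuous_id).isGδ

theorem meas_free (d : ℕ) : MeasurableSet (FreePart d) := (isGdelta_free d).measurableSet

instance polish_Conf (d : ℕ) : PolishSpace (Conf d) :=
  { (inferInstance : SecondCountableTopology (Conf d)),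
    (inferInstance : IsCompletelyMetrizableSpace (Conf d)) with }

instance polish_XX (d : ℕ) : PolishSpace (XX d) := polish_of_Gdelta (isGdelta_free d)

instance borel_XX (d : ℕ) : BorelSpace (XX d) := Subtype.borelSpace _

/-! ### unit vectors and the shift graph -/

theorem sv_inj {d : ℕ} {δ ε : Dir d} (h : sv δ = sv ε) : δ = ε := by
  obtain ⟨i, b⟩ := δ
  obtain ⟨j, b'⟩ := ε
  have hi := congrFun h i
  by_cases hij : i = j
  · subst hij
    cases b <;> cases b' <;> simp [sv] at hi ⊢ <;> omega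
  · cases b <;> cases b' <;> simp [sv, hij] at hi

theorem adj_iff {d : ℕ} {x y : XX d} :
    (shiftGraph d).Adj x y ↔ ∃ δ : Dir d, y = act (sv δ) x := by
  constructor
  · rintro ⟨i, h | h⟩
    · exact ⟨(i, true), h⟩
    · exact ⟨(i, false), h⟩
  · rintro ⟨⟨i, b⟩, h⟩
    cases b
    · exact ⟨i, Or.inr h⟩
    · exact ⟨i, Or.inl h⟩

theorem mem_FF {d : ℕ} {g : Fin d → ℤ} :
    g ∈ FF d ↔ g ≠ 0 ∧ ∃ δ ε : Dir d, g = sv ε - sv δ := by
  unfold FF
  rw [Finset.mem_erase, Finset.mem_image]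
  constructor
  · rintro ⟨h, p, _, c⟩
    exact ⟨h, p.1, p.2, c.symm⟩
  · rintro ⟨h, a, b, c⟩
    exact ⟨h, (a, b), Finset.mem_univ _, c.symm⟩

theorem exists_col (d : ℕ) : ∃ c : XX d → Fin (KK d), Measurable c ∧
    ∀ x, ∀ δ ε : Dir d, c (act (sv δ) x) = c (act (sv ε) x) → δ = ε := by
  obtain ⟨c, h1, h2⟩ := exists_colouring (FF d) (fun h => (mem_FF.1 h).1 rfl) (by
    intro g hg
    obtain ⟨h0, δ, ε, h⟩ := mem_FF.1 hg
    exact mem_FF.2 ⟨neg_ne_zero.2 h0, ε, δ, by rw [h]; abel⟩)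
  refine ⟨c, h1, ?_⟩
  intro x δ ε h
  by_contra hne
  have hs : sv ε - sv δ ≠ 0 := fun h0 => hne (sv_inj (sub_eq_zero.1 h0)).symm
  refine h2 (sv ε - sv δ) (mem_FF.2 ⟨hs, δ, ε, rfl⟩) (act (sv δ) x) ?_
  rw [← act_add, sub_add_cancel]
  exact h.symm

/-! ### balls -/

theorem ball_mono {V : Type} {G : SimpleGraph V} {r s : ℕ} (h : r ≤ s) {v w : V}
    (hw : w ∈ ball G r v) : w ∈ ball G s v := by
  obtain ⟨p, hp⟩ := hw
  exact ⟨p, hp.trans h⟩

theorem ball_trans {V : Type} {G : SimpleGraph V} {r s : ℕ} {u v w : V}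
    (h1 : v ∈ ball G r u) (h2 : w ∈ ball G s v) : w ∈ ball G (r + s) u := by
  obtain ⟨p, hp⟩ := h1
  obtain ⟨q, hq⟩ := h2
  refine ⟨p.append q, ?_⟩
  rw [SimpleGraph.Walk.length_append]
  omega

theorem ball_adj {V : Type} {G : SimpleGraph V} {v w : V} (h : G.Adj v w) : w ∈ ball G 1 v :=
  ⟨SimpleGraph.Walk.cons h SimpleGraph.Walk.nil, by simp⟩

theorem ball_nsmul {d : ℕ} (δ : Dir d) (v : XX d) (n : ℕ) :
    act (n • sv δ) v ∈ ball (shiftGraph d) n v := by
  induction n with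
  | zero => rw [zero_smul, act_zero]; exact mem_ball_self _ _ _
  | succ n ih =>
    refine ball_trans ih (ball_adj (adj_iff.2 ⟨δ, ?_⟩))
    rw [← act_add, succ_nsmul, add_comm]

theorem ball_zsmul {d : ℕ} (i : Fin d) (v : XX d) (t : ℤ) {n : ℕ} (hn : |t| ≤ n) :
    act (t • (Pi.single i 1 : Fin d → ℤ)) v ∈ ball (shiftGraph d) n v := by
  obtain ⟨m, rfl | rfl⟩ := Int.eq_nat_or_neg t
  · have h1 : ((m : ℤ) • (Pi.single i 1 : Fin d → ℤ)) = m • sv (i, true) := by
      simp [sv]
    rw [h1]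
    refine ball_mono ?_ (ball_nsmul _ _ _)
    rw [Nat.abs_cast] at hn
    exact_mod_cast hn
  · have h1 : ((-(m : ℤ)) • (Pi.single i 1 : Fin d → ℤ)) = m • sv (i, false) := by
      simp [sv]
    rw [h1]
    refine ball_mono ?_ (ball_nsmul _ _ _)
    rw [abs_neg, Nat.abs_cast] at hn
    exact_mod_cast hn

theorem walk_bd {d : ℕ} {v w : XX d} (p : (shiftGraph d).Walk v w) :
    ∃ g : Fin d → ℤ, (∀ i, |g i| ≤ p.length) ∧ w = act g v := by
  induction p with
  | nil => exact ⟨0, fun i => by simp, (act_zero _).symm⟩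
  | cons h p ih =>
    obtain ⟨g, h1, h2⟩ := ih
    obtain ⟨δ, hδ⟩ := adj_iff.1 h
    refine ⟨g + sv δ, fun i => ?_, ?_⟩
    · have h3 : |sv δ i| ≤ 1 := by
        obtain ⟨j, b⟩ := δ
        by_cases hij : i = j
        · subst hij
          cases b <;> simp [sv]
        · cases b <;> simp [sv, hij]
      have h4 := abs_add_le (g i) (sv δ i)
      have h5 := h1 i
      rw [SimpleGraph.Walk.length_cons, Pi.add_apply]
      push_cast
      linarith
    · rw [act_add, ← hδ, ← h2]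

theorem ball_finite {d : ℕ} (r : ℕ) (v : XX d) : (ball (shiftGraph d) r v).Finite := by
  refine Set.Finite.subset
    ((Set.finite_Icc (fun _ => -(r : ℤ) : Fin d → ℤ) (fun _ => (r : ℤ))).image
      fun g => act g v) ?_
  rintro w ⟨p, hp⟩
  obtain ⟨g, h1, h2⟩ := walk_bd p
  refine ⟨g, ⟨fun i => ?_, fun i => ?_⟩, h2.symm⟩
  · have := h1 i
    have h3 : (p.length : ℤ) ≤ r := by exact_mod_cast hp
    rw [abs_le] at this
    show -(r : ℤ) ≤ g i
    linarith
  · have := h1 i
    have h3 : (p.length : ℤ) ≤ r := by exact_mod_cast hp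
    rw [abs_le] at this
    show g i ≤ (r : ℤ)
    linarith

/-! ### the action of the plane -/

/-- the plane of the first two coordinates -/
def pt {d : ℕ} (hd : 2 ≤ d) (t x : ℤ) : Fin d → ℤ :=
  t • (Pi.single ⟨0, by omega⟩ 1 : Fin d → ℤ) + x • (Pi.single ⟨1, by omega⟩ 1 : Fin d → ℤ)

theorem pt_zero {d : ℕ} (hd : 2 ≤ d) : pt hd 0 0 = 0 := by simp [pt]

theorem pt_add {d : ℕ} (hd : 2 ≤ d) (s t x z : ℤ) :
    pt hd (s + t) (x + z) = pt hd s x + pt hd t z := by
  unfold pt
  rw [add_smul, add_smul]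
  abel

theorem pt_eq_zero {d : ℕ} (hd : 2 ≤ d) {t x : ℤ} (h : pt hd t x = 0) : t = 0 ∧ x = 0 := by
  have h0 := congrFun h ⟨0, by omega⟩
  have h1 := congrFun h ⟨1, by omega⟩
  simp [pt] at h0 h1
  exact ⟨h0, h1⟩

theorem pt_t {d : ℕ} (hd : 2 ≤ d) (t x : ℤ) :
    pt hd (t + 1) x = sv (⟨0, by omega⟩, true) + pt hd t x := by
  unfold pt sv
  rw [add_smul, one_smul]
  simp only [if_true]
  abel

theorem pt_x {d : ℕ} (hd : 2 ≤ d) (t x : ℤ) :
    pt hd t (x + 1) = sv (⟨1, by omega⟩, true) + pt hd t x := by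
  unfold pt sv
  rw [add_smul, one_smul]
  simp only [if_true]
  abel

theorem ball_pt {d : ℕ} (hd : 2 ≤ d) (v : XX d) {t x : ℤ} (ht : |t| ≤ 2) (hx : |x| ≤ 2) :
    act (pt hd t x) v ∈ ball (shiftGraph d) 5 v := by
  have h1 : act (pt hd t x) v = act (t • (Pi.single ⟨0, by omega⟩ 1 : Fin d → ℤ))
      (act (x • (Pi.single ⟨1, by omega⟩ 1 : Fin d → ℤ)) v) := by
    rw [← act_add]; rfl
  rw [h1]
  refine ball_mono (by norm_num : 2 + 2 ≤ 5) (ball_trans (ball_zsmul _ _ _ (n := 2) ?_)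
    (ball_zsmul _ _ _ (n := 2) ?_))
  · exact_mod_cast hx
  · exact_mod_cast ht

/-! ### the solution -/

/-- the labels -/
def lbl {d : ℕ} (c : XX d → Fin (KK d)) (f : XX d → Lab) (x : XX d) : Lb d (KK d) :=
  (c x, fun δ => c (act (sv δ) x), f x)

theorem step_iff {d : ℕ} {c : XX d → Fin (KK d)} (f : XX d → Lab)
    (hc : ∀ x, ∀ δ ε : Dir d, c (act (sv δ) x) = c (act (sv ε) x) → δ = ε) (δ : Dir d)
    (x y : XX d) : Step (shiftGraph d) (lbl c f) δ x y ↔ y = act (sv δ) x := by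
  constructor
  · rintro ⟨h1, h2⟩
    obtain ⟨ε, rfl⟩ := adj_iff.1 h1
    have h3 : c (act (sv ε) x) = c (act (sv δ) x) := h2
    rw [hc x _ _ h3]
  · rintro rfl
    exact ⟨adj_iff.2 ⟨δ, rfl⟩, rfl⟩

theorem good_of_rule {d : ℕ} (hd : 2 ≤ d) {c : XX d → Fin (KK d)} (f : XX d → Lab)
    (hc : ∀ x, ∀ δ ε : Dir d, c (act (sv δ) x) = c (act (sv ε) x) → δ = ε) (v : XX d)
    (hR : Rule (fun t x => f (act (pt hd t x) v)) 0 0) :
    Good ((shiftGraph d).comap (Subtype.val : ball (shiftGraph d) 5 v → XX d))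
      (fun a => lbl c f a.1) hd ⟨v, mem_ball_self _ 5 v⟩ := by
  have st : ∀ (δ : Dir d) (a b : ball (shiftGraph d) 5 v),
      Step ((shiftGraph d).comap (Subtype.val : ball (shiftGraph d) 5 v → XX d))
        (fun a => lbl c f a.1) δ a b ↔ b.1 = act (sv δ) a.1 := by
    intro δ a b
    exact step_iff f hc δ a.1 b.1
  have inj : ∀ x, ∀ δ ε : Dir d, c (act (sv δ) x) = c (act (sv ε) x) → δ = ε := hc
  have m1 : ∀ δ : Dir d, act (sv δ) v ∈ ball (shiftGraph d) 1 v :=
    fun δ => ball_adj (adj_iff.2 ⟨δ, rfl⟩)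
  refine ⟨?_, ?_, ?_, ?_, ?_, ?_⟩
  · intro δ ε h
    exact hc v δ ε h
  · intro w w' hw hw' h
    obtain ⟨δ, hδ⟩ := adj_iff.1 (show (shiftGraph d).Adj v w.1 from hw)
    obtain ⟨ε, hε⟩ := adj_iff.1 (show (shiftGraph d).Adj v w'.1 from hw')
    have h' : c w.1 = c w'.1 := h
    rw [hδ, hε] at h'
    have := hc v _ _ h'
    apply Subtype.ext
    rw [hδ, hε, this]
  · intro δ
    exact ⟨⟨act (sv δ) v, ball_mono (by norm_num) (m1 δ)⟩, (st _ _ _).2 rfl⟩
  · intro δ w hw
    rw [st] at hw ⊢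
    rw [hw, sv_ngd, act_neg_act]
  · intro δ ε w z h1 h2 hw hz
    rw [st] at hw hz
    have hm : act (sv δ + sv ε) v ∈ ball (shiftGraph d) 5 v := by
      rw [act_add]
      exact ball_mono (by norm_num : 1 + 1 ≤ 5)
        (ball_trans (m1 ε) (ball_adj (adj_iff.2 ⟨δ, rfl⟩)))
    refine ⟨⟨act (sv δ + sv ε) v, hm⟩, ?_, ?_⟩
    · rw [st, hw]
      show act (sv δ + sv ε) v = _
      rw [add_comm, act_add]
    · rw [st, hz]
      show act (sv δ + sv ε) v = _
      rw [act_add]
  · let χ : ℤ → ℤ → ball (shiftGraph d) 5 v := fun t x =>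
      if h : |t| ≤ 2 ∧ |x| ≤ 2 then ⟨act (pt hd t x) v, ball_pt hd v h.1 h.2⟩
      else ⟨v, mem_ball_self _ 5 v⟩
    have hχ : ∀ t x : ℤ, |t| ≤ 2 → |x| ≤ 2 → (χ t x).1 = act (pt hd t x) v := by
      intro t x ht hx
      simp only [χ, dif_pos (And.intro ht hx)]
    refine ⟨χ, ?_, ?_, ?_, ?_⟩
    · apply Subtype.ext
      rw [hχ 0 0 (by norm_num) (by norm_num), pt_zero, act_zero]
    · intro t x ht hx ht1
      rw [st, hχ t x ht hx, hχ (t + 1) x ht1 hx, pt_t, act_add]
    · intro t x ht hx hx1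
      rw [st, hχ t x ht hx, hχ t (x + 1) ht hx1, pt_x, act_add]
    · refine Rule_congr ?_ hR
      intro s y hs hy
      show f (act (pt hd (0 + s) (0 + y)) v) = f (χ (0 + s) (0 + y)).1
      rw [zero_add, zero_add, hχ s y hs hy]

theorem meas_lbl {d : ℕ} {c : XX d → Fin (KK d)} (hc : Measurable c) {f : XX d → Lab}
    (hf : ∀ l, MeasurableSet (f ⁻¹' {l})) :
    Measurable fun x => (dec d).symm (lbl c f x) := by
  refine measurable_to_countable' fun n => ?_
  have h1 : (fun x => (dec d).symm (lbl c f x)) ⁻¹' {n} =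
      (c ⁻¹' {(dec d n).1} ∩ ⋂ δ : Dir d, (fun x => c (act (sv δ) x)) ⁻¹' {(dec d n).2.1 δ}) ∩
        f ⁻¹' {(dec d n).2.2} := by
    ext x
    simp only [Set.mem_preimage, Set.mem_singleton_iff, Set.mem_inter_iff, Set.mem_iInter]
    rw [Equiv.symm_apply_eq]
    constructor
    · intro h
      rw [← h]
      exact ⟨⟨rfl, fun _ => rfl⟩, rfl⟩
    · rintro ⟨⟨a, b⟩, e⟩
      exact Prod.ext a (Prod.ext (funext b) e)
  rw [h1]
  refine MeasurableSet.inter (MeasurableSet.inter (hc (measurableSet_singleton _)) ?_) (hf _)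
  exact MeasurableSet.iInter fun δ => (hc.comp (meas_act (sv δ))) (measurableSet_singleton _)

theorem residual_act {d : ℕ} {G : Set (XX d)} (hG : G ∈ residual (XX d)) (g : Fin d → ℤ) :
    act g ⁻¹' G ∈ residual (XX d) := by
  have h1 : IsOpenMap (act g : XX d → XX d) := by
    have e : (act g : XX d → XX d) =
        ({ toFun := act g
           invFun := act (-g)
           left_inv := act_neg_act g
           right_inv := act_act_neg g
           continuous_toFun := cont_act g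
           continuous_invFun := cont_act (-g) } : XX d ≃ₜ XX d) := rfl
    rw [e]
    exact Homeomorph.isOpenMap _
  exact tendsto_residual_of_isOpenMap (cont_act g) h1 hG

/-- There is a Baire measurable solution. -/
theorem baireSol {d : ℕ} (hd : 2 ≤ d) : (Prob hd).BaireSol d := by
  obtain ⟨f, G, hf, hG, _, hGr, hR⟩ := Pool.Agent.W927.BM.pos (XX d)
    (fun t x y => act (pt hd t x) y) (fun y => by rw [pt_zero, act_zero])
    (fun s t x z y => by rw [pt_add, act_add]) (fun t x => meas_act _)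
    (fun t x y h => pt_eq_zero hd (act_free h))
  obtain ⟨c, hc, hcc⟩ := exists_col d
  refine ⟨⋂ g : Fin d → ℤ, act g ⁻¹' G, fun x => (dec d).symm (lbl c f x), ?_, ?_, ?_, ?_, ?_⟩
  · exact MeasurableSet.iInter fun g => meas_act g hG
  · intro g x hx
    rw [Set.mem_iInter] at hx ⊢
    intro h
    have := hx (h + g)
    rw [Set.mem_preimage, act_add] at this
    exact this
  · exact countable_iInter_mem.2 fun g => residual_act hGr g
  · exact meas_lbl hc hf
  · intro x hx
    have hxG : x ∈ G := by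
      have := Set.mem_iInter.1 hx 0
      rwa [Set.mem_preimage, act_zero] at this
    refine good.At hd (ball_finite 5 x) ?_
    have e : (fun a : ball (shiftGraph d) 5 x => dec d ((dec d).symm (lbl c f a.1))) =
        fun a => lbl c f a.1 := by
      funext a
      rw [Equiv.apply_symm_apply]
    rw [e]
    exact good_of_rule hd f hcc x (hR x hxG 0 0)

end Pool.Agent.T2H42.BNB

end
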