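import Pool.Agent.T2H42.BNB.Pos

/-!
# Rigidity: a solution determines directions which do not depend on the point
-/

set_option autoImplicit false

open Classical

noncomputable section

namespace Pool.Agent.T2H42.BNB

open Pool.Agent.W927.BM (Lab Rule Rule_congr)
open MeasureTheory TopologicalSpace

theorem ngd_ne {d : ℕ} (δ : Dir d) : ngd δ ≠ δ := by
  intro h
  have := congrArg Prod.snd h
  simp [ngd] at this

theorem ngd_inj {d : ℕ} {δ ε : Dir d} (h : ngd δ = ngd ε) : δ = ε := by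
  rw [← ngd_ngd δ, h, ngd_ngd]

/-- the coordinate in the direction `c` -/
def ph {d : ℕ} (c : Dir d) (g : Fin d → ℤ) : ℤ := if c.2 then g c.1 else -g c.1

theorem ph_add {d : ℕ} (c : Dir d) (g h : Fin d → ℤ) : ph c (g + h) = ph c g + ph c h := by
  unfold ph
  split_ifs
  · rfl
  · rw [Pi.add_apply]; ring

theorem ph_self {d : ℕ} (c : Dir d) : ph c (sv c) = 1 := by
  obtain ⟨i, b⟩ := c
  cases b <;> simp [ph, sv]

theorem ph_ne {d : ℕ} {b c : Dir d} (h : b ≠ c) : ph c (sv b) ≤ 0 := by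
  obtain ⟨i, s⟩ := b
  obtain ⟨j, t⟩ := c
  by_cases hij : i = j
  · subst hij
    have : s ≠ t := fun e => h (by rw [e])
    cases s <;> cases t <;> simp_all [ph, sv]
  · have hji : ¬ j = i := fun e => hij e.symm
    cases s <;> cases t <;> simp [ph, sv, hji]

theorem ph_neg {d : ℕ} {b c : Dir d} (h : b ≠ ngd c) : 0 ≤ ph c (sv b) := by
  have h1 : ph (ngd c) (sv b) = -ph c (sv b) := by
    obtain ⟨j, t⟩ := c
    cases t <;> simp [ph, ngd]
  have h2 := ph_ne h
  rw [h1] at h2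
  linarith

theorem vec {d : ℕ} {a b c k : Dir d} (h : sv b + sv a = sv k + sv c) (hac : a ≠ c)
    (hb : b ≠ ngd a) : b = c := by
  by_contra hbc
  have h1 := congrArg (ph c) h
  rw [ph_add, ph_add, ph_self] at h1
  have h2 := ph_ne hac
  have h3 := ph_ne hbc
  have h4 : k = ngd c := by
    by_contra hk
    have := ph_neg hk
    linarith
  rw [h4, sv_ngd, neg_add_cancel] at h
  apply hb
  apply sv_inj
  rw [sv_ngd]
  exact eq_neg_of_add_eq_zero_left h

section

variable {d K : ℕ} {hd : 2 ≤ d} {l : XX d → Lb d K}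

/-- the directions of the labels at the point `x` are given by `σ` -/
def Rd (l : XX d → Lb d K) (σ : Dir d → Dir d) (x : XX d) : Prop :=
  ∀ δ, (l (act (sv (σ δ)) x)).1 = (l x).2.1 δ

theorem exists_Rd {x : XX d} (h : Good (shiftGraph d) l hd x) : ∃ σ, Rd l σ x := by
  have h1 : ∀ δ, ∃ ε, (l (act (sv ε) x)).1 = (l x).2.1 δ := by
    intro δ
    obtain ⟨w, hw⟩ := h.ex δ
    obtain ⟨ε, rfl⟩ := adj_iff.1 hw.1
    exact ⟨ε, hw.2⟩
  choose σ hσ using h1
  exact ⟨σ, hσ⟩

theorem Rd.step {σ : Dir d → Dir d} {x : XX d} (hr : Rd l σ x) (δ : Dir d) :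
    Step (shiftGraph d) l δ x (act (sv (σ δ)) x) := ⟨adj_iff.2 ⟨_, rfl⟩, hr δ⟩

theorem Rd.uniq {σ : Dir d → Dir d} {x : XX d} (h : Good (shiftGraph d) l hd x)
    (hr : Rd l σ x) {δ : Dir d} {w : XX d} (hw : Step (shiftGraph d) l δ x w) :
    w = act (sv (σ δ)) x := by
  have h1 := hr.step δ
  exact h.dist _ _ hw.1 h1.1 (hw.2.trans h1.2.symm)

theorem Rd.inj {σ : Dir d → Dir d} {x : XX d} (h : Good (shiftGraph d) l hd x)
    (hr : Rd l σ x) : Function.Injective σ := by
  intro δ ε he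
  apply h.inj
  rw [← hr δ, ← hr ε, he]

theorem Rd.next {σ : Dir d → Dir d} {x : XX d} (h : Good (shiftGraph d) l hd x)
    (hr : Rd l σ x) (δ : Dir d) (hw : Good (shiftGraph d) l hd (act (sv (σ δ)) x)) :
    Rd l σ (act (sv (σ δ)) x) := by
  obtain ⟨τ, hτ⟩ := exists_Rd hw
  have iσ := hr.inj h
  have iτ := hτ.inj hw
  have sσ : Function.Surjective σ := Finite.surjective_of_injective iσ
  have sτ : Function.Surjective τ := Finite.surjective_of_injective iτ
  -- the opposite direction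
  have hb : τ (ngd δ) = ngd (σ δ) := by
    have h1 := h.back δ _ (hr.step δ)
    have h2 := hτ.uniq hw h1
    rw [← act_add] at h2
    have h3 := act_free h2.symm
    apply sv_inj
    rw [sv_ngd]
    exact eq_neg_of_add_eq_zero_left h3
  -- the other directions
  have hc : ∀ ε, ε ≠ δ → ε ≠ ngd δ → τ ε = σ ε := by
    intro ε h1 h2
    obtain ⟨y, hy1, hy2⟩ := h.comm δ ε _ _ h1 h2 (hr.step δ) (hr.step ε)
    have h3 := hτ.uniq hw hy1
    obtain ⟨κ, hκ⟩ := adj_iff.1 hy2.1
    rw [h3, ← act_add, ← act_add] at hκ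
    have h4 := act_inj hκ
    refine vec h4 (fun e => h1 (iσ e).symm) ?_
    intro e
    rw [← hb] at e
    exact h2 (iτ e)
  have hd1 : τ (ngd δ) = σ (ngd δ) := by
    obtain ⟨p, hp⟩ := sσ (ngd (σ δ))
    have h1 : p ≠ δ := by
      rintro rfl
      exact ngd_ne (σ p) hp.symm
    have h2 : p = ngd δ := by
      by_contra h2
      have h3 := hc p h1 h2
      rw [hp, ← hb] at h3
      exact h2 (iτ h3)
    rw [hb, ← hp, h2]
  have hd2 : τ δ = σ δ := by
    obtain ⟨p, hp⟩ := sτ (σ δ)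
    have h1 : p ≠ ngd δ := by
      rintro rfl
      rw [hb] at hp
      exact ngd_ne (σ δ) hp
    have h2 : p = δ := by
      by_contra h2
      have h3 := hc p h2 h1
      rw [hp] at h3
      exact h2 (iσ h3).symm
    rw [← hp, h2]
  have heq : τ = σ := by
    funext ε
    by_cases h1 : ε = δ
    · rw [h1, hd2]
    · by_cases h2 : ε = ngd δ
      · rw [h2, hd1]
      · exact hc ε h1 h2
  rw [heq] at hτ
  exact hτ

theorem Rd.all {C : Set (XX d)} (hC : Invariant C)
    (hG : ∀ x ∈ C, Good (shiftGraph d) l hd x) {σ : Dir d → Dir d} {x : XX d} (hx : x ∈ C)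
    (hr : Rd l σ x) (g : Fin d → ℤ) : Rd l σ (act g x) := by
  have st : ∀ (ε : Dir d) (y : XX d), y ∈ C → Rd l σ y → Rd l σ (act (sv ε) y) := by
    intro ε y hy hry
    obtain ⟨δ, rfl⟩ := (Finite.surjective_of_injective (hry.inj (hG y hy))) ε
    exact hry.next (hG y hy) δ (hG _ (hC _ y hy))
  have st2 : ∀ (ε : Dir d) (n : ℕ) (y : XX d), y ∈ C → Rd l σ y →
      Rd l σ (act (n • sv ε) y) := by
    intro ε n
    induction n with
    | zero => intro y _ hry; rwa [zero_smul, act_zero]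
    | succ n ih =>
      intro y hy hry
      rw [succ_nsmul, act_add]
      exact ih _ (hC _ y hy) (st ε y hy hry)
  have st3 : ∀ (i : Fin d) (t : ℤ) (y : XX d), y ∈ C → Rd l σ y →
      Rd l σ (act (Pi.single i t) y) := by
    intro i t y hy hry
    obtain ⟨m, rfl | rfl⟩ := Int.eq_nat_or_neg t
    · have h1 : (Pi.single i (m : ℤ) : Fin d → ℤ) = m • sv (i, true) := by
        simp only [sv, if_true]
        rw [← Pi.single_smul, nsmul_eq_mul, mul_one]
      rw [h1]
      exact st2 _ _ _ hy hry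
    · have h1 : (Pi.single i (-(m : ℤ)) : Fin d → ℤ) = m • sv (i, false) := by
        simp only [sv, Bool.false_eq_true, if_false]
        rw [← Pi.single_neg, ← Pi.single_smul, nsmul_eq_mul]
        congr 1
        ring
      rw [h1]
      exact st2 _ _ _ hy hry
  have st4 : ∀ (s : Finset (Fin d)) (y : XX d), y ∈ C → Rd l σ y →
      Rd l σ (act (∑ i ∈ s, Pi.single i (g i)) y) := by
    intro s
    induction s using Finset.induction_on with
    | empty => intro y _ hry; rwa [Finset.sum_empty, act_zero]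
    | insert i s hi ih =>
      intro y hy hry
      rw [Finset.sum_insert hi, act_add]
      exact st3 i _ _ (hC _ y hy) (ih y hy hry)
  have h1 := st4 Finset.univ x hx hr
  rwa [Finset.univ_sum_single] at h1

/-- The points of the chart. -/
theorem line_eq {C : Set (XX d)} (hC : Invariant C)
    (hG : ∀ x ∈ C, Good (shiftGraph d) l hd x) {σ : Dir d → Dir d}
    (hσ : ∀ x ∈ C, Rd l σ x) (δ : Dir d) (φ : ℤ → XX d) (h0 : φ 0 ∈ C)
    (h : ∀ t : ℤ, |t| ≤ 2 → |t + 1| ≤ 2 → Step (shiftGraph d) l δ (φ t) (φ (t + 1)))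
    (t : ℤ) (ht : |t| ≤ 2) : φ t = act (t • sv (σ δ)) (φ 0) := by
  have up : ∀ t : ℤ, |t| ≤ 2 → |t + 1| ≤ 2 → φ t ∈ C → φ (t + 1) = act (sv (σ δ)) (φ t) :=
    fun t h1 h2 h3 => (hσ _ h3).uniq (hG _ h3) (h t h1 h2)
  have mem : ∀ t : ℤ, |t| ≤ 2 → |t + 1| ≤ 2 → φ (t + 1) ∈ C → φ t ∈ C := by
    intro t h1 h2 h3
    obtain ⟨κ, hκ⟩ := adj_iff.1 (h t h1 h2).1.symm
    rw [hκ]
    exact hC _ _ h3
  have dn : ∀ t : ℤ, |t| ≤ 2 → |t + 1| ≤ 2 → φ (t + 1) ∈ C →
      φ t = act (-sv (σ δ)) (φ (t + 1)) := by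
    intro t h1 h2 h3
    rw [up t h1 h2 (mem t h1 h2 h3), act_neg_act]
  have e1 : φ 1 = act (sv (σ δ)) (φ 0) := up 0 (by norm_num) (by norm_num) h0
  have m1 : φ 1 ∈ C := by rw [e1]; exact hC _ _ h0
  have e2 : φ 2 = act (sv (σ δ)) (φ 1) := up 1 (by norm_num) (by norm_num) m1
  have f1 : φ (-1) = act (-sv (σ δ)) (φ 0) := dn (-1) (by norm_num) (by norm_num) h0
  have n1 : φ (-1) ∈ C := by rw [f1]; exact hC _ _ h0
  have f2 : φ (-2) = act (-sv (σ δ)) (φ (-1)) := dn (-2) (by norm_num) (by norm_num) n1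
  rw [abs_le] at ht
  obtain ⟨ht1, ht2⟩ := ht
  interval_cases t
  · rw [f2, f1, ← act_add]
    congr 1
    module
  · rw [f1]
    congr 1
    module
  · rw [zero_smul, act_zero]
  · rw [e1, one_smul]
  · rw [e2, e1, ← act_add]
    congr 1
    module

/-- The rule holds on the orbits for the constant directions. -/
theorem rule_of_const {C : Set (XX d)} (hC : Invariant C)
    (hG : ∀ x ∈ C, Good (shiftGraph d) l hd x) {σ : Dir d → Dir d}
    (hσ : ∀ x ∈ C, Rd l σ x) {y : XX d} (hy : y ∈ C) (t x : ℤ) :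
    Rule (fun t' x' => (l (act (t' • sv (σ (⟨0, by omega⟩, true)) +
      x' • sv (σ (⟨1, by omega⟩, true))) y)).2.2) t x := by
  set u := sv (σ (⟨0, by omega⟩, true)) with hu
  set v := sv (σ (⟨1, by omega⟩, true)) with hv
  have hz : act (t • u + x • v) y ∈ C := hC _ _ hy
  obtain ⟨χ, c0, c1, c2, c3⟩ := (hG _ hz).rule
  have a0 : ∀ s : ℤ, |s| ≤ 2 → χ s 0 = act (s • u) (χ 0 0) := by
    intro s hs
    exact line_eq hC hG hσ _ (fun s => χ s 0) (by simpa only [c0] using hz)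
      (fun s h1 h2 => c1 s 0 h1 (by norm_num) h2) s hs
  have a1 : ∀ s z : ℤ, |s| ≤ 2 → |z| ≤ 2 → χ s z = act (z • v) (χ s 0) := by
    intro s z hs hzz
    refine line_eq hC hG hσ _ (fun z => χ s z) ?_ (fun z h1 h2 => c2 s z hs h1 h2) z hzz
    show χ s 0 ∈ C
    rw [a0 s hs, c0]
    exact hC _ _ hz
  refine Rule_congr ?_ c3
  intro s z hs hzz
  show (l (χ (0 + s) (0 + z))).2.2 = (l (act ((t + s) • u + (x + z) • v) y)).2.2
  have e : (t + s) • u + (x + z) • v = z • v + s • u + (t • u + x • v) := by module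
  rw [zero_add, zero_add, a1 s z hs hzz, a0 s hs, c0, ← act_add, ← act_add, e]

end

end Pool.Agent.T2H42.BNB

end
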